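import Mathlib
import Pool.Agent.Lib.MP_6a261b_co.Geo

set_option autoImplicit false

namespace Pool.Agent.Results.MP_6a261b_co.MonotoneBound

open unitInterval

/-- A drawing in the plane `ℝ × ℝ` of a multigraph with vertex set `V` and edge set `E`.
Edge `e` has end-vertices `src e`, `tgt e` (parallel edges are allowed); vertices are pairwise
distinct points; each edge is a continuous curve between the points of its end-vertices whose
interior contains no vertex point. -/
structure Drawing (V E : Type) where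
  src : E → V
  tgt : E → V
  pt : V → ℝ × ℝ
  pt_injective : Function.Injective pt
  curve : E → C(I, ℝ × ℝ)
  curve_zero : ∀ e, curve e 0 = pt (src e)
  curve_one : ∀ e, curve e 1 = pt (tgt e)
  curve_ne_pt : ∀ e (t : I), t ≠ 0 → t ≠ 1 → ∀ v, curve e t ≠ pt v

variable {V E : Type}

/-- Every edge meets each vertical line in at most one point, and there are no loops. -/
def Drawing.IsMonotone (D : Drawing V E) : Prop :=
  ∀ e, D.src e ≠ D.tgt e ∧ ∀ c : ℝ, {p | p ∈ Set.range (D.curve e) ∧ p.1 = c}.Subsingleton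

/-- There is a homotopy from the curve of `e` to the curve of `f` (traversed in either direction)
that keeps the two end points fixed and avoids the points of all other vertices. -/
def Drawing.Homotopic (D : Drawing V E) (e f : E) : Prop :=
  ∃ H : C(I × I, ℝ × ℝ),
    (∀ s, H (0, s) = D.curve e s) ∧
    ((∀ s, H (1, s) = D.curve f s) ∨ (∀ s, H (1, s) = D.curve f (unitInterval.symm s))) ∧
    (∀ τ, H (τ, 0) = D.pt (D.src e)) ∧ (∀ τ, H (τ, 1) = D.pt (D.tgt e)) ∧
    ∀ τ s x, x ≠ D.src e → x ≠ D.tgt e → H (τ, s) ≠ D.pt x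

/-- No two distinct parallel edges are homotopic. -/
def Drawing.IsNonHomotopic (D : Drawing V E) : Prop :=
  ∀ e f, e ≠ f → s(D.src e, D.tgt e) = s(D.src f, D.tgt f) → ¬ D.Homotopic e f

/-- The crossings between the edges `e` and `f`: pairs of interior parameters with equal points. -/
def Drawing.crossings (D : Drawing V E) (e f : E) : Set (I × I) :=
  {q | q.1 ≠ 0 ∧ q.1 ≠ 1 ∧ q.2 ≠ 0 ∧ q.2 ≠ 1 ∧ D.curve e q.1 = D.curve f q.2}

theorem result (V E : Type) [Fintype V] [Fintype E] (D : Drawing V E) (k : ℕ)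
    (hmono : D.IsMonotone) (hnh : D.IsNonHomotopic)
    (hcross : ∀ e f, e ≠ f → (D.crossings e f).encard ≤ k) :
    Fintype.card E ≤ 4 * ∑ l ∈ Finset.range (k + 1), (Fintype.card V).choose (l + 1) := by
  have h := Pool.Agent.Lib.MP_6a261b_co.main D.src D.tgt D.pt D.pt_injective D.curve D.curve_zero
    D.curve_one D.curve_ne_pt (fun e => (hmono e).1)
    (fun e s t hst => (hmono e).2 (D.curve e t).1 ⟨⟨s, rfl⟩, hst⟩ ⟨⟨t, rfl⟩, rfl⟩) hnh k hcross
  rw [Finset.sum_range_succ]
  omega

end Pool.Agent.Results.MP_6a261b_co.MonotoneBound
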